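import Mathlib

/-!
# Reconstruction from 2-neighborhoods: the definitions of the statement
-/

set_option autoImplicit false

namespace Pool.Agent.H70.SHT

/-- The vertices at graph distance at most 2 from `v`. -/
def Nbhd {V : Type*} (G : SimpleGraph V) (v : V) : Set V := {w | G.edist v w ≤ 2}

theorem self_mem {V : Type*} (G : SimpleGraph V) (v : V) : v ∈ Nbhd G v := by
  simp [Nbhd]

/-- The 2-neighborhoods of `v` in `G` and of `w` in `H` (induced subgraphs, rooted at `v` and at
`w`) are isomorphic by an isomorphism sending root to root. -/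
def SameView {V W : Type*} (G : SimpleGraph V) (v : V) (H : SimpleGraph W) (w : W) : Prop :=
  ∃ f : G.induce (Nbhd G v) ≃g H.induce (Nbhd H w), f ⟨v, self_mem G v⟩ = ⟨w, self_mem H w⟩

/-- `G` is reconstructable from its 2-neighborhoods. -/
def Reconstructable {V : Type} (G : SimpleGraph V) : Prop :=
  ∀ (W : Type) (H : SimpleGraph W) (φ : V ≃ W),
    (∀ v, SameView G v H (φ v)) → Nonempty (G ≃g H)

end Pool.Agent.H70.SHT
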