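import Mathlib
import Pool.Agent.H49.Shot.Assembly
import Pool.Agent.H90.Shot.PartC
import Pool.Agent.H82.Shot.Final
import Pool.Agent.H70.SHT.Defs

/-!
# Reconstruction of `G(n,p)` from its 2-neighborhoods, with Mathlib's random graph
-/

set_option autoImplicit false

open Finset Classical Filter Topology unitInterval SimpleGraph MeasureTheory

namespace Pool.Agent.H70.SHT

open Pool.Agent.H90.Shot Pool.Agent.H49.Shot

instance (n : ℕ) : MeasurableSingletonClass (SimpleGraph (Fin n)) := by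
  refine ⟨fun G => ?_⟩
  have h : ({G} : Set (SimpleGraph (Fin n))) = edgeSet ⁻¹' {G.edgeSet} := by
    ext H
    simp
  rw [h]
  exact measurable_edgeSet (Set.toFinite _).measurableSet

/-- The two forms of the probability agree. -/
theorem measure_eq (n : ℕ) (p : I) (Q : SimpleGraph (Fin n) → Prop) :
    binomialRandom (Fin n) p {G | Q G} = ENNReal.ofReal (GP n p Q) := by
  have h0 : (0 : ℝ) ≤ p := p.2.1
  have h1 : (0 : ℝ) ≤ 1 - p := by linarith [p.2.2]
  have hset : {G : SimpleGraph (Fin n) | Q G} = ↑(univ.filter Q) := by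
    ext G
    simp
  rw [hset, ← sum_measure_singleton]
  unfold GP
  rw [← Finset.sum_filter, ENNReal.ofReal_sum_of_nonneg]
  · refine Finset.sum_congr rfl (fun G _ => ?_)
    rw [binomialRandom_singleton, Nat.card_eq_fintype_card, Fintype.card_fin,
      Set.ncard_eq_toFinset_card', ENNReal.ofReal_mul (pow_nonneg h0 _),
      ENNReal.ofReal_pow h0, ENNReal.ofReal_pow h1]
    have e1 : ((toNNReal p : NNReal) : ENNReal) = ENNReal.ofReal p := by
      rw [ENNReal.ofReal, Real.toNNReal_of_nonneg h0]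
      rfl
    have e2 : ((toNNReal (σ p) : NNReal) : ENNReal) = ENNReal.ofReal (1 - p) := by
      rw [ENNReal.ofReal, Real.toNNReal_of_nonneg h1]
      rfl
    rw [e1, e2]
    rfl
  · intro G _
    exact mul_nonneg (pow_nonneg h0 _) (pow_nonneg h1 _)

theorem edist_comap' {V W : Type*} (H : SimpleGraph W) (φ : V ≃ W) (v w : V) :
    (H.comap φ).edist v w = H.edist (φ v) (φ w) := by
  let ψ : H.comap φ ≃g H := ⟨φ, fun {a b} => Iff.rfl⟩
  apply le_antisymm
  · have h := edist_iso_le ψ.symm (φ v) (φ w)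
    have e : ∀ z, ψ.symm (φ z) = z := fun z => φ.symm_apply_apply z
    rwa [e, e] at h
  · exact edist_iso_le ψ v w

/-- The property of the frozen statement implies the present one. -/
theorem reconstructable_of_recon {n : ℕ} {G : SimpleGraph (Fin n)} (h : Recon G) :
    Reconstructable G := by
  intro W H φ hv
  let ψ : H.comap φ ≃g H := ⟨φ, fun {a b} => Iff.rfl⟩
  have key : Nonempty (G ≃g H.comap φ) := by
    refine h (H.comap φ) ⟨Equiv.refl _, fun v => ?_⟩
    obtain ⟨F, hF⟩ := hv v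
    refine ⟨fun w => if hw : w ∈ Nbhd G v then φ.symm (F ⟨w, hw⟩) else w, ?_, ⟨?_, ?_, ?_⟩, ?_⟩
    · have : v ∈ Nbhd G v := self_mem G v
      simp only [this, dif_pos]
      rw [hF]
      simp
    · intro w hw
      have hw' : w ∈ Nbhd G v := hw
      simp only [hw', dif_pos]
      show (H.comap φ).edist v _ ≤ 2
      rw [edist_comap', Equiv.apply_symm_apply]
      exact (F ⟨w, hw'⟩).2
    · intro a ha b hb hab
      have ha' : a ∈ Nbhd G v := ha
      have hb' : b ∈ Nbhd G v := hb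
      simp only [ha', hb', dif_pos] at hab
      have h2 := F.injective (Subtype.ext (φ.symm.injective hab))
      exact congrArg Subtype.val h2
    · intro w hw
      have hw' : φ w ∈ Nbhd H (φ v) := by
        show H.edist (φ v) (φ w) ≤ 2
        rw [← edist_comap']
        exact hw
      refine ⟨F.symm ⟨φ w, hw'⟩, (F.symm ⟨φ w, hw'⟩).2, ?_⟩
      have h3 : ((F.symm ⟨φ w, hw'⟩ : Nbhd G v) : Fin n) ∈ Nbhd G v := (F.symm ⟨φ w, hw'⟩).2
      simp only [h3, dif_pos]
      have h4 : F ⟨((F.symm ⟨φ w, hw'⟩ : Nbhd G v) : Fin n), h3⟩ = ⟨φ w, hw'⟩ :=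
        F.apply_symm_apply _
      rw [h4]
      simp
    · intro a ha b hb
      have ha' : a ∈ Nbhd G v := ha
      have hb' : b ∈ Nbhd G v := hb
      simp only [ha', hb', dif_pos, SimpleGraph.comap_adj, Equiv.apply_symm_apply]
      have h5 := F.map_rel_iff (a := ⟨a, ha'⟩) (b := ⟨b, hb'⟩)
      exact h5.symm
  obtain ⟨e⟩ := key
  exact ⟨e.trans ψ⟩

/-- The probability of the property of the frozen statement tends to 1, without an upper bound
on `p`. -/
theorem tendsto_GP (ε : ℝ) (hε : 0 < ε) (p : ℕ → ℝ)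
    (hp : ∀ᶠ n : ℕ in Filter.atTop, (n : ℝ) ^ (-(3/4 : ℝ) + ε) ≤ p n ∧ p n ≤ 1) :
    Filter.Tendsto (fun n : ℕ => GP n (p n) Recon) Filter.atTop (nhds 1) := by
  obtain ⟨δ, hδ, hB⟩ := Pool.Agent.H82.Shot.rangeB'
  have hC := fun η hη => Pool.Agent.H90.Shot.rangeC ε δ hε hδ η hη
  rw [Metric.tendsto_atTop']
  intro η hη
  have hη2 : 0 < η / 2 := by linarith
  have h := ((((hp.and (hB (η / 2) hη2)).and (hC (η / 2) hη2)).and
    (rangeA (η / 2) hη2)).and (eventually_ge_atTop 1))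
  rw [eventually_atTop] at h
  obtain ⟨N, hN⟩ := h
  refine ⟨N, fun n hn => ?_⟩
  obtain ⟨⟨⟨⟨⟨hp1, h1⟩, hB⟩, hC⟩, hA⟩, hn1⟩ := hN n hn.le
  have hn1' : (1 : ℝ) ≤ n := by exact_mod_cast hn1
  have hn0 : (0 : ℝ) < n := by linarith
  have h0 : 0 ≤ p n := le_trans (Real.rpow_nonneg hn0.le _) hp1
  have hbad : GP n (p n) Bad ≤ η / 2 := by
    have hmono : GP n (p n) Bad ≤ GP n (p n) (fun G => ∃ H, Nonempty (Views G H) ∧ H ≠ G) := by
      refine GP_mono h0 h1 (fun G hG => ?_)
      obtain ⟨H, hW, hne⟩ := hG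
      refine ⟨H, hW, fun h => hne ?_⟩
      rw [h]
      exact ⟨SimpleGraph.Iso.refl⟩
    by_cases c1 : (n : ℝ) ^ (-2 / 3 - δ) ≤ p n
    · by_cases c2 : n * p n ^ 2 ≤ 3 * Real.log n
      · exact hmono.trans (hB (p n) c1 c2)
      · exact hA (p n) h0 h1 (not_le.mp c2).le
    · refine hmono.trans (hC (p n) ?_ (not_le.mp c1).le)
      have e : (-3 / 4 + ε : ℝ) = -(3 / 4) + ε := by ring
      rw [e]
      exact hp1
  have h2 : GP n (p n) Recon ≤ 1 := GP_le_one h0 h1 _
  have h3 : 1 - η / 2 ≤ GP n (p n) Recon := by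
    have h4 : GP n (p n) (fun G => ¬ Bad G) ≤ GP n (p n) Recon :=
      GP_mono h0 h1 (fun G hG => recon_of_not_bad hG)
    rw [GP_not] at h4
    linarith
  rw [Real.dist_eq, abs_lt]
  constructor <;> linarith

theorem main (ε : ℝ) (hε : 0 < ε) (p : ℕ → I)
    (hp : ∀ᶠ n : ℕ in atTop, (n : ℝ) ^ (-(3 / 4 : ℝ) + ε) ≤ p n) :
    Tendsto (fun n : ℕ => binomialRandom (Fin n) (p n) {G | Reconstructable G}) atTop (𝓝 1) := by
  have h1 : Tendsto (fun n : ℕ => GP n (p n) Recon) atTop (𝓝 1) :=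
    tendsto_GP ε hε (fun n => (p n : ℝ)) (hp.mono (fun n h => ⟨h, (p n).2.2⟩))
  have h2 : Tendsto (fun n : ℕ => ENNReal.ofReal (GP n (p n) Recon)) atTop (𝓝 1) := by
    have := ENNReal.tendsto_ofReal h1
    rwa [ENNReal.ofReal_one] at this
  refine tendsto_of_tendsto_of_tendsto_of_le_of_le h2 tendsto_const_nhds (fun n => ?_)
    (fun n => prob_le_one)
  show ENNReal.ofReal (GP n (p n) Recon) ≤ _
  rw [← measure_eq]
  exact measure_mono (fun G hG => reconstructable_of_recon hG)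

end Pool.Agent.H70.SHT
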